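import Pool.Agent.Y581.WN.StmC
import Pool.Agent.Y626.WC.Core

/-!
# Project WN: robust decision trees for existential sentences (after `Pool/Agent/Y626/WC/Core.lean`
of helper626)
-/

set_option autoImplicit false

namespace Pool.Agent.Y48.WN

open MeasureTheory Pool.Agent.NPC Pool.Agent.H620R2.Gauge Pool.Agent.TH678.GC
  Pool.Agent.Y626.WG Pool.Agent.Y626.WC Pool.Agent.Y581.WN
open Pool.Agent.H628R3.RO (randomOracle prob)

/-- the questions -/
def DI (I : Inst) (v : List ℕ) : Finset (List Bool) :=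
  (I.atoms.map fun p => p.2.flatMap fun i => I.labels.getD (v.getD i 0) []).toFinset

theorem card_DI (I : Inst) (v : List ℕ) : (DI I v).card ≤ I.param := by
  refine le_trans (List.toFinset_card_le _) ?_
  rw [List.length_map]
  exact length_le_param I

theorem DI_len (I : Inst) {v : List ℕ} {z : List Bool} (hz : z ∈ DI I v) :
    z.length ≤ (bits I).length ^ 2 := by
  rw [DI, List.mem_toFinset, List.mem_map] at hz
  obtain ⟨⟨r, l⟩, h1, rfl⟩ := hz
  exact flat_len I h1 v

theorem atoms_locN (I : Inst) {A A' : Oracle} {v : List ℕ} (h : ∀ z ∈ DI I v, A z = A' z) :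
    I.atoms.map (I.atom A v) = I.atoms.map (I.atom A' v) := by
  refine List.map_congr_left fun a ha => ?_
  obtain ⟨r, l⟩ := a
  cases r with
  | zero =>
    show A _ = A' _
    refine h _ ?_
    rw [DI, List.mem_toFinset, List.mem_map]
    exact ⟨(0, l), ha, rfl⟩
  | succ r => rfl

theorem t_inst : S_tree → S_inst := by
  intro htree y
  by_cases H : ∃ I : Inst, (unpair y).2 = bits I ∧ I.IsW 1 ∧ (bits I).length ^ 2 ≤ y.length
  · obtain ⟨I, h1, h2, h3⟩ := H
    obtain ⟨t, h4, h5, h6⟩ := htree I.param y.length ((bits I).length ^ 2) I.param le_rfl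
      (2 * y.length + 2) (List ℕ)
      (fun v A => (v.length = I.blocks.sum ∧ ∀ a ∈ v, a < I.labels.length) ∧
        I.atoms.map (I.atom A v) ∈ I.acc) (DI I)
      (fun v A A' h => by rw [atoms_locN I h])
      (fun v z hz => DI_len I hz) (fun v _ => card_DI I v)
    refine ⟨t, fun h => ?_, ?_, ?_⟩
    · rcases DT.nx_mem t h5 h with h7 | h7
      · rw [h7]
        simp
      · obtain ⟨v, hv⟩ := Set.mem_iUnion.1 h7
        exact (DI_len I (Finset.mem_coe.1 hv)).trans h3
    · intro I' h1' _ _
      rw [h1] at h1'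
      obtain rfl := bits_injective h1'
      refine h4.trans (le_of_eq ?_)
      unfold bdn
      ring
    · intro K
      obtain ⟨Bad, h7, h8⟩ := h6 K
      refine ⟨Bad, h7, fun I' h1' _ _ R hR A hA => ?_⟩
      rw [h1] at h1'
      obtain rfl := bits_injective h1'
      rw [h8 R hR A hA, sat_one h2]
  · refine ⟨DT.leaf false, fun h => ?_, fun I h1 h2 h3 => absurd ⟨I, h1, h2, h3⟩ H, fun K =>
      ⟨∅, ?_, fun I h1 h2 h3 => absurd ⟨I, h1, h2, h3⟩ H⟩⟩
    · cases h <;> simp [DT.nx]
    · rw [measureReal_empty]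
      positivity

end Pool.Agent.Y48.WN
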