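import Pool.Agent.Y581.WN.StmC

/-!
# Project WN: robust decision trees (after theorem `tree` of helper626, `Pool/Agent/Y626/WC/Dt.lean`)
-/

set_option autoImplicit false

namespace Pool.Agent.Y48.WN

open MeasureTheory Pool.Agent.NPC Pool.Agent.H620R2.Gauge Pool.Agent.TH678.GC
  Pool.Agent.Y626.WG Pool.Agent.Y626.WC Pool.Agent.Y626.WR Pool.Agent.Y581.WN
open Pool.Agent.H628R3.RO (randomOracle prob)

/-- the strings which determine the noise at the strings in `D` -/
def DN (D : Finset (List Bool)) : Finset (List Bool) :=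
  D.biUnion fun z => (Finset.range 8).image fun j => bitsOf 3 j ++ z

theorem mem_DN {D : Finset (List Bool)} {z : List Bool} (hz : z ∈ D) {j : ℕ} (hj : j < 8) :
    bitsOf 3 j ++ z ∈ DN D :=
  Finset.mem_biUnion.2 ⟨z, hz, Finset.mem_image.2 ⟨j, Finset.mem_range.2 hj, rfl⟩⟩

theorem card_DN (D : Finset (List Bool)) : (DN D).card ≤ 8 * D.card := by
  refine le_trans Finset.card_biUnion_le ?_
  refine le_trans (Finset.sum_le_card_nsmul _ _ 8 fun z _ => ?_) ?_
  · exact Finset.card_image_le.trans (by rw [Finset.card_range])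
  · rw [smul_eq_mul, mul_comm]

theorem drop_bits (j : ℕ) (z : List Bool) : (bitsOf 3 j ++ z).drop 3 = z := by
  have h : (bitsOf 3 j).length = 3 := by simp [bitsOf]
  rw [List.drop_append_of_le_length (by omega), List.drop_of_length_le (by omega), List.nil_append]

theorem DN_disj {D D' : Finset (List Bool)} (h : Disjoint D D') : Disjoint (DN D) (DN D') := by
  rw [Finset.disjoint_left]
  intro x hx hx'
  unfold DN at hx hx'
  rw [Finset.mem_biUnion] at hx hx'
  obtain ⟨z, hz, h1⟩ := hx
  obtain ⟨z', hz', h1'⟩ := hx'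
  obtain ⟨j, _, rfl⟩ := Finset.mem_image.1 h1
  obtain ⟨j', _, h2⟩ := Finset.mem_image.1 h1'
  have h3 := congrArg (List.drop 3) h2
  rw [drop_bits, drop_bits] at h3
  subst h3
  exact Finset.disjoint_left.1 h hz hz'

theorem nz_congr {R R' : Oracle} {z : List Bool}
    (h : ∀ j < 8, R (bitsOf 3 j ++ z) = R' (bitsOf 3 j ++ z)) : nz R z = nz R' z := by
  unfold nz
  rw [Bool.eq_iff_iff, List.all_eq_true, List.all_eq_true]
  refine forall₂_congr fun j hj => ?_
  rw [h j (List.mem_range.1 hj)]

theorem OO_pos (K A0 : Oracle) :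
    OO K (fun u => xor (K (unpair (u.drop 3)).1) (A0 (u.drop 3))) = A0 := by
  funext z
  have h : nz (fun u => xor (K (unpair (u.drop 3)).1) (A0 (u.drop 3))) z =
      xor (K (unpair z).1) (A0 z) := by
    unfold nz
    simp only [drop_bits]
    rw [Bool.eq_iff_iff, List.all_eq_true]
    constructor
    · intro h
      exact h 0 (List.mem_range.2 (by norm_num))
    · intro h _ _
      exact h
  unfold OO
  rw [h, ← Bool.xor_assoc, Bool.xor_self, Bool.false_xor]

theorem t_tree : S_few → S_tree := by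
  classical
  intro hfew W P N
  have hempty : prob (∅ : Set Oracle) = 0 := by unfold prob; simp
  have hq1 : 1 ≤ qq W := by unfold qq; omega
  -- if some event always happens
  have hsure : ∀ (w L : ℕ) (ι : Type)
      (f : ι → Oracle → Prop) (D : ι → Finset (List Bool)),
      (∀ i, ∀ A A' : Oracle, (∀ z ∈ D i, A z = A' z) → (f i A ↔ f i A')) →
      (∃ i, (∃ A, f i A) ∧ D i = ∅) →
      ∃ t : DT, t.depth ≤ w * qq W ^ w * (2 * P + L) ∧ t.In (⋃ i, (D i : Set (List Bool))) ∧
      ∀ K : Oracle, ∃ Bad : Set Oracle, prob Bad ≤ (1 / 2 : ℝ) ^ L ∧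
        ∀ R ∉ Bad, ∀ A : Oracle, Pool.Agent.W900.CH.dist (OO K R) A N ≤ P →
          (t.eval A = true ↔ ∃ i, f i A) := by
    rintro w L ι f D hloc ⟨i, ⟨A0, h0⟩, hD⟩
    refine ⟨DT.leaf true, Nat.zero_le _, trivial, fun K => ⟨∅, ?_, fun R _ A _ => ?_⟩⟩
    · rw [hempty]
      positivity
    · refine ⟨fun _ => ⟨i, (hloc i A0 A ?_).1 h0⟩, fun _ => rfl⟩
      rw [hD]
      intro z hz
      exact absurd hz (Finset.notMem_empty z)
  intro w
  induction w with
  | zero =>
    intro _ L ι f D hloc hN hlive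
    by_cases hex : ∃ i, ∃ A, f i A
    · obtain ⟨i, hi⟩ := hex
      exact hsure 0 L ι f D hloc ⟨i, hi, Finset.card_eq_zero.1 (Nat.le_zero.1 (hlive i hi))⟩
    · refine ⟨DT.leaf false, Nat.zero_le _, trivial, fun K => ⟨∅, ?_, fun R _ A _ => ?_⟩⟩
      · rw [hempty]
        positivity
      · exact ⟨fun h => absurd h (by simp [DT.eval]), fun ⟨i, h⟩ => absurd ⟨i, A, h⟩ hex⟩
  | succ w ih =>
    intro hw L ι f D hloc hN hlive
    by_cases hsr : ∃ i, (∃ A, f i A) ∧ D i = ∅
    · exact hsure (w + 1) L ι f D hloc hsr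
    obtain ⟨m, hm⟩ : ∃ m, m = 2 ^ (8 * W) * (4 * (2 * P + L)) := ⟨_, rfl⟩
    by_cases hbig : ∃ s : Finset ι, s.card = m ∧ (∀ i ∈ s, ∃ A, f i A) ∧
        (s : Set ι).PairwiseDisjoint D
    · obtain ⟨s, hs, hsl, hsd⟩ := hbig
      refine ⟨DT.leaf true, Nat.zero_le _, trivial, fun K => ?_⟩
      have h1 := hfew ι (fun i R => f i (OO K R)) (fun i => DN (D i)) (8 * W) P L s ?_ ?_ ?_ ?_
      · refine ⟨_, h1, fun R hR A hA => ⟨fun _ => ?_, fun _ => rfl⟩⟩
        by_contra hno
        apply hR
        refine ⟨s.filter fun i => f i (OO K R), ?_, fun i hi hf =>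
          Finset.mem_filter.2 ⟨hi, hf⟩⟩
        refine le_trans ?_ hA
        have hch : ∀ i : ι, ∃ z : List Bool, i ∈ s.filter (fun i => f i (OO K R)) →
            z ∈ D i ∧ A z ≠ OO K R z := by
          intro i
          by_cases hi : i ∈ s.filter (fun i => f i (OO K R))
          · by_contra hcon
            push Not at hcon
            apply hno
            refine ⟨i, (hloc i (OO K R) A fun z hz => ?_).1 (Finset.mem_filter.1 hi).2⟩
            exact ((hcon z).2 hz).symm
          · exact ⟨[], fun h => absurd h hi⟩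
        choose z hz using hch
        unfold Pool.Agent.W900.CH.dist
        rw [← Set.ncard_coe_finset]
        refine Set.ncard_le_ncard_of_injOn z ?_ ?_
          (Pool.Agent.W900.CH.finite_diff (OO K R) A N)
        · intro i hi
          obtain ⟨h2, h3⟩ := hz i (Finset.mem_coe.1 hi)
          exact ⟨hN i _ h2, h3⟩
        · intro i hi j hj hij
          obtain ⟨h2, _⟩ := hz i (Finset.mem_coe.1 hi)
          obtain ⟨h4, _⟩ := hz j (Finset.mem_coe.1 hj)
          by_contra hne
          have h5 := hsd (Finset.mem_coe.2 (Finset.mem_filter.1 (Finset.mem_coe.1 hi)).1)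
            (Finset.mem_coe.2 (Finset.mem_filter.1 (Finset.mem_coe.1 hj)).1) hne
          rw [← hij] at h4
          exact Finset.disjoint_left.1 h5 h2 h4
      · intro i R R' h
        refine hloc i _ _ fun z hz => ?_
        unfold OO
        rw [nz_congr fun j hj => h _ (mem_DN hz hj)]
      · intro i hi
        obtain ⟨A0, hA0⟩ := hsl i hi
        refine ⟨⟨fun u => xor (K (unpair (u.drop 3)).1) (A0 (u.drop 3)), ?_⟩,
          (card_DN _).trans ?_⟩
        · rw [OO_pos]
          exact hA0
        · have := hlive i ⟨A0, hA0⟩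
          omega
      · intro i hi j hj hij
        exact DN_disj (hsd hi hj hij)
      · rw [hs, hm]
    -- a maximal disjoint family
    obtain ⟨s, hsl, hsd, hsc, hmax⟩ : ∃ s : Finset ι, (∀ i ∈ s, ∃ A, f i A) ∧
        (s : Set ι).PairwiseDisjoint D ∧ s.card ≤ m ∧
        ∀ i, (∃ A, f i A) → ¬ Disjoint (D i) (s.biUnion D) := by
      have hb : ∀ s : Finset ι, (∀ i ∈ s, ∃ A, f i A) → (s : Set ι).PairwiseDisjoint D →
          s.card < m := by
        intro s h1 h2
        by_contra hc
        push Not at hc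
        obtain ⟨s', h3, h4⟩ := Finset.exists_subset_card_eq hc
        exact hbig ⟨s', h4, fun i hi => h1 i (h3 hi), h2.subset (Finset.coe_subset.2 h3)⟩
      have hP : ∃ n : ℕ, ∃ s : Finset ι, s.card = m - n ∧ (∀ i ∈ s, ∃ A, f i A) ∧
          (s : Set ι).PairwiseDisjoint D := ⟨m, ∅, by simp, by simp, by simp⟩
      obtain ⟨s, h1, h2, h3⟩ := Nat.find_spec hP
      have hlt := hb s h2 h3
      refine ⟨s, h2, h3, hlt.le, fun i hi hdisj => ?_⟩
      have hne : (D i).Nonempty := by
        rw [Finset.nonempty_iff_ne_empty]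
        intro h
        exact hsr ⟨i, hi, h⟩
      have his : i ∉ s := by
        intro h
        obtain ⟨z, hz⟩ := hne
        exact (Finset.disjoint_left.1 hdisj hz) (Finset.mem_biUnion.2 ⟨i, h, hz⟩)
      have hn0 : Nat.find hP ≠ 0 := by
        intro h
        rw [h] at h1
        omega
      have hle : Nat.find hP ≤ m := Nat.find_min' hP ⟨∅, by simp, by simp, by simp⟩
      refine Nat.find_min hP (Nat.sub_lt (Nat.pos_of_ne_zero hn0) Nat.one_pos)
        ⟨insert i s, ?_, ?_, ?_⟩
      · rw [Finset.card_insert_of_notMem his, h1]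
        omega
      · intro j hj
        rcases Finset.mem_insert.1 hj with rfl | hj
        · exact hi
        · exact h2 j hj
      · rw [Finset.coe_insert]
        refine h3.insert fun j hj _ => ?_
        rw [Finset.disjoint_biUnion_right] at hdisj
        exact hdisj j (Finset.mem_coe.1 hj)
    set U := s.biUnion D with hU
    obtain ⟨E, hE⟩ : ∃ E, E = W * 2 ^ (8 * W + 2) * (2 * P + L) := ⟨_, rfl⟩
    have hUE : U.card ≤ E := by
      refine le_trans Finset.card_biUnion_le ?_
      refine le_trans (Finset.sum_le_card_nsmul _ _ (w + 1) fun i hi => hlive i (hsl i hi)) ?_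
      rw [smul_eq_mul]
      refine (Nat.mul_le_mul hsc hw).trans (le_of_eq ?_)
      rw [hm, hE, pow_add]
      ring
    have hqE : 2 * P + (L + E) = qq W * (2 * P + L) := by
      rw [hE]
      unfold qq
      ring
    have hk : ∀ T : Finset (List Bool), ∃ t : DT, t.depth ≤ w * qq W ^ w * (2 * P + (L + E)) ∧
        t.In (⋃ i, ((D i \ U : Finset (List Bool)) : Set (List Bool))) ∧
        ∀ K : Oracle, ∃ Bad : Set Oracle, prob Bad ≤ (1 / 2 : ℝ) ^ (L + E) ∧
        ∀ R ∉ Bad, ∀ A : Oracle, Pool.Agent.W900.CH.dist (OO K R) A N ≤ P →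
          (t.eval A = true ↔ ∃ i, f i (ow U T A)) := by
      intro T
      refine ih (by omega) (L + E) ι (fun i A => f i (ow U T A)) (fun i => D i \ U) ?_ ?_ ?_
      · intro i A A' h
        refine hloc i _ _ fun z hz => ?_
        unfold ow
        by_cases hzU : z ∈ U
        · rw [if_pos hzU, if_pos hzU]
        · rw [if_neg hzU, if_neg hzU]
          exact h z (Finset.mem_sdiff.2 ⟨hz, hzU⟩)
      · intro i z hz
        exact hN i z (Finset.mem_sdiff.1 hz).1
      · rintro i ⟨A, hA⟩
        have h1 := hlive i ⟨_, hA⟩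
        have h2 := hmax i ⟨_, hA⟩
        rw [Finset.not_disjoint_iff] at h2
        obtain ⟨z, hz1, hz2⟩ := h2
        have h3 : (D i \ U).card < (D i).card :=
          Finset.card_lt_card ⟨Finset.sdiff_subset, fun h => (Finset.mem_sdiff.1 (h hz1)).2 hz2⟩
        omega
    choose k hk1 hk2 hk3 using hk
    refine ⟨DT.qall U.toList k, ?_, ?_, ?_⟩
    · refine (DT.depth_qall U.toList k hk1).trans ?_
      rw [Finset.length_toList, hqE]
      have h1 : E ≤ qq W ^ (w + 1) * (2 * P + L) := by
        have h2 : E ≤ qq W * (2 * P + L) := by omega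
        refine h2.trans (Nat.mul_le_mul_right _ ?_)
        calc qq W = qq W ^ 1 := (pow_one _).symm
          _ ≤ qq W ^ (w + 1) := Nat.pow_le_pow_right hq1 (by omega)
      calc U.card + w * qq W ^ w * (qq W * (2 * P + L))
          ≤ qq W ^ (w + 1) * (2 * P + L) + w * qq W ^ w * (qq W * (2 * P + L)) := by omega
        _ = (w + 1) * qq W ^ (w + 1) * (2 * P + L) := by ring
    · refine DT.in_qall _ _ ?_ fun T => DT.In.mono ?_ _ (hk2 T)
      · intro z hz
        rw [Finset.mem_toList, hU, Finset.mem_biUnion] at hz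
        obtain ⟨i, _, hz⟩ := hz
        exact Set.mem_iUnion.2 ⟨i, Finset.mem_coe.2 hz⟩
      · refine Set.iUnion_mono fun i => ?_
        exact Finset.coe_subset.2 Finset.sdiff_subset
    · intro K
      choose B hB1 hB2 using fun T => hk3 T K
      refine ⟨⋃ T ∈ U.powerset, B T, ?_, ?_⟩
      · have h1 : prob (⋃ T ∈ U.powerset, B T) ≤ ∑ T ∈ U.powerset, prob (B T) := by
          unfold prob
          exact measureReal_biUnion_finset_le _ _
        refine h1.trans ((Finset.sum_le_sum fun T _ => hB1 T).trans ?_)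
        rw [Finset.sum_const, Finset.card_powerset, nsmul_eq_mul, pow_add]
        have h2 : ((2 ^ U.card : ℕ) : ℝ) * (1 / 2 : ℝ) ^ E ≤ 1 := by
          have h3 : (1 / 2 : ℝ) ^ E ≤ (1 / 2 : ℝ) ^ U.card :=
            pow_le_pow_of_le_one (by norm_num) (by norm_num) hUE
          calc ((2 ^ U.card : ℕ) : ℝ) * (1 / 2 : ℝ) ^ E
              ≤ ((2 ^ U.card : ℕ) : ℝ) * (1 / 2 : ℝ) ^ U.card :=
                mul_le_mul_of_nonneg_left h3 (by positivity)
            _ = 1 := by
              push_cast
              rw [← mul_pow]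
              norm_num
        have h3 : (0 : ℝ) ≤ (1 / 2 : ℝ) ^ L := by positivity
        calc ((2 ^ U.card : ℕ) : ℝ) * ((1 / 2 : ℝ) ^ L * (1 / 2 : ℝ) ^ E)
            = (((2 ^ U.card : ℕ) : ℝ) * (1 / 2 : ℝ) ^ E) * (1 / 2 : ℝ) ^ L := by ring
          _ ≤ 1 * (1 / 2 : ℝ) ^ L := mul_le_mul_of_nonneg_right h2 h3
          _ = (1 / 2 : ℝ) ^ L := one_mul _
      · intro R hR A hA
        rw [DT.eval_qall, Finset.toList_toFinset]
        set T := U.filter fun z => A z = true with hT
        have hRT : R ∉ B T := by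
          intro h
          exact hR (Set.mem_biUnion (Finset.mem_coe.2
            (Finset.mem_powerset.2 (Finset.filter_subset _ _))) h)
        rw [hB2 T R hRT A hA]
        have e1 : ow U T A = A := by
          funext z
          unfold ow
          by_cases hz : z ∈ U
          · rw [if_pos hz]
            by_cases h : A z = true
            · rw [h, decide_eq_true_eq]
              exact Finset.mem_filter.2 ⟨hz, h⟩
            · rw [Bool.not_eq_true] at h
              rw [h, decide_eq_false_iff_not, Finset.mem_filter, h]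
              simp
          · rw [if_neg hz]
        rw [e1]

end Pool.Agent.Y48.WN
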